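import Pool.Agent.U180.NG.Stm2

set_option autoImplicit false

namespace Pool.Agent.U873.NG

open Pool.Agent.U180.NG

lemma b2_up (x h : ℝ) (h0 : 0 ≤ h) (h1 : h ≤ 1) :
    b2 (x + h) - b2 x ≤ 2 * h * (Int.fract x - 1 / 2) + h ^ 2 := by
  have hu0 := Int.fract_nonneg x
  have hu1 := Int.fract_lt_one x
  unfold b2
  by_cases hc : Int.fract x + h < 1
  · have : Int.fract (x + h) = Int.fract x + h := by
      rw [Int.fract_eq_iff]
      refine ⟨by linarith, hc, ⌊x⌋, ?_⟩
      have := Int.floor_add_fract x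
      linarith
    rw [this]
    nlinarith
  · push Not at hc
    by_cases hc2 : Int.fract x + h - 1 < 1
    · have : Int.fract (x + h) = Int.fract x + h - 1 := by
        rw [Int.fract_eq_iff]
        refine ⟨by linarith, hc2, ⌊x⌋ + 1, ?_⟩
        have := Int.floor_add_fract x
        push_cast
        linarith
      rw [this]
      nlinarith
    · exfalso; linarith

lemma b2_dn (x h : ℝ) (h0 : 0 ≤ h) (h1 : h ≤ 1) :
    2 * h * (Int.fract x - 1 / 2) - h ^ 2 ≤ b2 x - b2 (x - h) := by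
  have hu0 := Int.fract_nonneg x
  have hu1 := Int.fract_lt_one x
  unfold b2
  by_cases hc : h ≤ Int.fract x
  · have : Int.fract (x - h) = Int.fract x - h := by
      rw [Int.fract_eq_iff]
      refine ⟨by linarith, by linarith, ⌊x⌋, ?_⟩
      have := Int.floor_add_fract x
      linarith
    rw [this]
    nlinarith
  · push Not at hc
    have : Int.fract (x - h) = Int.fract x - h + 1 := by
      rw [Int.fract_eq_iff]
      refine ⟨by linarith, by linarith, ⌊x⌋ - 1, ?_⟩
      have := Int.floor_add_fract x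
      push_cast
      linarith
    rw [this]
    nlinarith

theorem t_PSI (h : S_B2I) : S_PSI := by
  obtain ⟨C, hC, hB⟩ := h
  refine ⟨C + 3 / 2, by linarith, fun R y c m₁ m₂ hR h1 h2 => ?_⟩
  set k : ℝ := R ^ (-(1 / 4) : ℝ) with hk
  have hR0 : 0 < R := by linarith
  have hk0 : 0 < k := Real.rpow_pos_of_pos hR0 _
  have hk1 : k ≤ 1 := Real.rpow_le_one_of_one_le_of_nonpos hR (by norm_num)
  have hkR : k * R = R ^ (3 / 4 : ℝ) := by
    rw [hk]
    nth_rewrite 2 [← Real.rpow_one R]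
    rw [← Real.rpow_add hR0]; norm_num
  have hks : Real.sqrt R = k * R ^ (3 / 4 : ℝ) := by
    rw [hk, ← Real.rpow_add hR0, Real.sqrt_eq_rpow]; norm_num
  -- number of rows
  have hcard : ((Finset.Icc m₁ m₂).card : ℝ) ≤ 3 * R := by
    rw [Int.card_Icc]
    have e1 : (-R - y) ≤ (m₁ : ℝ) := by
      have := Int.le_ceil (-R - y)
      have h1' : ((⌈-R - y⌉ : ℤ) : ℝ) ≤ m₁ := by exact_mod_cast h1
      linarith
    have e2 : (m₂ : ℝ) ≤ R - y := by
      have := Int.floor_le (R - y)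
      have h2' : (m₂ : ℝ) ≤ ((⌊R - y⌋ : ℤ) : ℝ) := by exact_mod_cast h2
      linarith
    by_cases hm : 0 ≤ m₂ + 1 - m₁
    · have : (((m₂ + 1 - m₁).toNat : ℤ) : ℝ) = ((m₂ + 1 - m₁ : ℤ) : ℝ) := by
        rw [Int.toNat_of_nonneg hm]
      have h3 : (((m₂ + 1 - m₁).toNat : ℕ) : ℝ) = ((m₂ + 1 - m₁ : ℤ) : ℝ) := by
        rw [← this]; norm_cast
      rw [h3]; push_cast; linarith
    · have : (m₂ + 1 - m₁).toNat = 0 := Int.toNat_of_nonpos (by omega)
      rw [this]; simp; linarith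
  set S : ℝ := ∑ m ∈ Finset.Icc m₁ m₂, (Int.fract (hl R y m + c) - 1 / 2) with hS
  have hb0 := hB R y c m₁ m₂ hR h1 h2
  have hbp := hB R y (c + k) m₁ m₂ hR h1 h2
  have hbm := hB R y (c - k) m₁ m₂ hR h1 h2
  have hup : (∑ m ∈ Finset.Icc m₁ m₂, b2 (hl R y m + (c + k))) -
      ∑ m ∈ Finset.Icc m₁ m₂, b2 (hl R y m + c) ≤ 2 * k * S + (Finset.Icc m₁ m₂).card * k ^ 2 := by
    rw [← Finset.sum_sub_distrib, hS, Finset.mul_sum, ← nsmul_eq_mul, ← Finset.sum_const,
      ← Finset.sum_add_distrib]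
    refine Finset.sum_le_sum fun m _ => ?_
    have := b2_up (hl R y m + c) k hk0.le hk1
    rw [show hl R y m + (c + k) = hl R y m + c + k by ring]
    linarith
  have hdn : 2 * k * S - (Finset.Icc m₁ m₂).card * k ^ 2 ≤ (∑ m ∈ Finset.Icc m₁ m₂, b2 (hl R y m + c)) -
      ∑ m ∈ Finset.Icc m₁ m₂, b2 (hl R y m + (c - k)) := by
    rw [← Finset.sum_sub_distrib, hS, Finset.mul_sum, ← nsmul_eq_mul, ← Finset.sum_const,
      ← Finset.sum_sub_distrib]
    refine Finset.sum_le_sum fun m _ => ?_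
    have := b2_dn (hl R y m + c) k hk0.le hk1
    rw [show hl R y m + (c - k) = hl R y m + c - k by ring]
    linarith
  rw [abs_le] at hb0 hbp hbm
  set T : ℝ := R ^ (3 / 4 : ℝ) with hT
  have hT0 : 0 < T := Real.rpow_pos_of_pos hR0 _
  have hck : (Finset.Icc m₁ m₂).card * k ^ 2 ≤ 3 * (k * T) := by
    calc ((Finset.Icc m₁ m₂).card : ℝ) * k ^ 2 ≤ 3 * R * k ^ 2 :=
          mul_le_mul_of_nonneg_right hcard (by positivity)
      _ = 3 * (k * (k * R)) := by ring
      _ = 3 * (k * T) := by rw [hkR]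
  rw [hks] at hb0 hbp hbm
  rw [abs_le]
  constructor
  · -- lower bound
    have : -(2 * k * (C * T) + 3 * (k * T)) ≤ 2 * k * S := by
      linarith [hb0.2, hbp.1]
    have h2k : 0 < 2 * k := by linarith
    have : 2 * k * (-((C + 3 / 2) * T)) ≤ 2 * k * S := by
      calc 2 * k * (-((C + 3 / 2) * T)) = -(2 * k * (C * T) + 3 * (k * T)) := by ring
        _ ≤ _ := this
    exact le_of_mul_le_mul_left this h2k
  · have : 2 * k * S ≤ 2 * k * (C * T) + 3 * (k * T) := by
      linarith [hb0.1, hb0.2, hbm.1, hbm.2]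
    have h2k : 0 < 2 * k := by linarith
    have : 2 * k * S ≤ 2 * k * ((C + 3 / 2) * T) := by
      calc 2 * k * S ≤ 2 * k * (C * T) + 3 * (k * T) := this
        _ = _ := by ring
    exact le_of_mul_le_mul_left this h2k

end Pool.Agent.U873.NG
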